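import Pool.Agent.H740R3.BQStmts

set_option autoImplicit false

open Filter Topology

namespace Pool.Agent.H880R3.BQ

universe u

theorem t12 : Pool.Agent.H740R3.BQ.T12.{u} := by
  intro Y _ _ A ε hε h2 hA
  have h3 : ∀ k n, ε (k + n) ≤ ε k / 2 ^ n := fun k n => by
    induction n with
    | zero => simp
    | succ n ih =>
      have h4 := h2 (k + n)
      rw [pow_succ, ← div_div]
      calc ε (k + (n + 1)) ≤ ε (k + n) / 2 := h4
        _ ≤ ε k / 2 ^ n / 2 := by gcongr
  have h5 : ∀ k n, dist (A (k + n)) (A (k + (n + 1))) ≤ (2 * ε k) / 2 / 2 ^ n := fun k n => by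
    rw [dist_comm, dist_eq_norm]
    have h6 := (hA (k + n)).trans (h3 k n)
    have h7 : (2 * ε k) / 2 / 2 ^ n = ε k / 2 ^ n := by ring
    rw [h7]
    exact h6
  have hC : CauchySeq A := cauchySeq_of_le_geometric_two (C := 2 * ε 0) fun n => by
    have := h5 0 n
    simpa only [zero_add] using this
  obtain ⟨L, hL⟩ := cauchySeq_tendsto_of_complete hC
  refine ⟨L, hL, fun k => ?_⟩
  have hk : Tendsto (fun n => A (k + n)) atTop (𝓝 L) := by
    have h := (tendsto_add_atTop_iff_nat k).2 hL
    simpa only [add_comm] using h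
  have h8 := dist_le_of_le_geometric_two_of_tendsto₀ (h5 k) hk
  rw [dist_comm, dist_eq_norm] at h8
  simpa using h8

end Pool.Agent.H880R3.BQ
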